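import Pool.Agent.KDD.Stmts
import Pool.Agent.Helper25_KDT.PLF

set_option autoImplicit false

/-!
# Squad KDD, row PLG: a general bound for the Kummer coordinates
-/

namespace Pool.Agent.KDD.H35

open Polynomial NumberField H58Q Pool.Agent.SZT Pool.Agent.KDT Pool.Agent.KDS
open Pool.Agent.MNT (QU)
open Pool.Agent.SZT.H25 (exists_theta25 theta_inj25 root_le25 discr_map_five25)
open Pool.Agent.KDT.H25 (kum_map25 fp_nontriv25 fp_nonarch25)

theorem single_mem35 (l : Fin 4) : (Pi.single l 1 : Fin 4 → ℕ) ∈ Ex 1 := by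
  revert l
  decide

theorem mon_single35 {K : Type} [Field K] (l : Fin 4) (u : Fin 4 → K) :
    mon (Pi.single l 1) u = u l := by
  unfold mon
  rw [Finset.prod_eq_single l]
  · rw [Pi.single_eq_same, pow_one]
  · intro m _ hm
    rw [Pi.single_eq_of_ne hm, pow_zero]
  · intro h
    exact absurd (Finset.mem_univ l) h

/-- the inverse of an integral unipotent change -/
theorem uni_inv35 {E : Type} [Field E] (w : AbsoluteValue E ℝ) (hw : IsNonarchimedean w)
    (c : Fin 6 → E) (u : Fin 4 → E) (R : ℝ) (hc : ∀ m, w (c m) ≤ 1)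
    (hu : ∀ l, w (uni c u l) ≤ R) : ∀ l, w (u l) ≤ R := by
  have hR : 0 ≤ R := (w.nonneg _).trans (hu 0)
  have hadd : ∀ x y : E, w x ≤ R → w y ≤ R → w (x + y) ≤ R := fun x y hx hy =>
    (hw x y).trans (max_le hx hy)
  have hsub : ∀ x y : E, w x ≤ R → w y ≤ R → w (x - y) ≤ R := fun x y hx hy => by
    rw [sub_eq_add_neg]
    exact hadd _ _ hx (by rw [w.map_neg]; exact hy)
  have hmul : ∀ (m : Fin 6) (y : E), w y ≤ R → w (c m * y) ≤ R := fun m y hy => by
    rw [map_mul]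
    calc w (c m) * w y ≤ 1 * w y := mul_le_mul_of_nonneg_right (hc m) (w.nonneg _)
      _ = w y := one_mul _
      _ ≤ R := hy
  have h0 : w (u 0) ≤ R := hu 0
  have h1 : w (u 1) ≤ R := by
    have e : u 1 = uni c u 1 - c 0 * u 0 := by
      have e1 : uni c u 1 = u 1 + c 0 * u 0 := rfl
      rw [e1]; ring
    rw [e]
    exact hsub _ _ (hu 1) (hmul _ _ h0)
  have h2 : w (u 2) ≤ R := by
    have e : u 2 = uni c u 2 - c 1 * u 1 - c 2 * u 0 := by
      have e1 : uni c u 2 = u 2 + c 1 * u 1 + c 2 * u 0 := rfl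
      rw [e1]; ring
    rw [e]
    exact hsub _ _ (hsub _ _ (hu 2) (hmul _ _ h1)) (hmul _ _ h0)
  have h3 : w (u 3) ≤ R := by
    have e : u 3 = uni c u 3 - c 3 * u 2 - c 4 * u 1 - c 5 * u 0 := by
      have e1 : uni c u 3 = u 3 + c 3 * u 2 + c 4 * u 1 + c 5 * u 0 := rfl
      rw [e1]; ring
    rw [e]
    exact hsub _ _ (hsub _ _ (hsub _ _ (hu 3) (hmul _ _ h2)) (hmul _ _ h1)) (hmul _ _ h0)
  intro l
  fin_cases l
  · exact h0
  · exact h1
  · exact h2
  · exact h3

/-- the entries of `adc` are integral -/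
theorem adc_int35 {E : Type} [Field E] (w : AbsoluteValue E ℝ) (hw : IsNonarchimedean w)
    (f : E[X]) (a b : E) (hf : ∀ n, w (f.coeff n) ≤ 1) (ha : w a ≤ 1) (hb : w b ≤ 1) :
    ∀ m, w (adc f a b m) ≤ 1 := by
  have hadd : ∀ x y : E, w x ≤ 1 → w y ≤ 1 → w (x + y) ≤ 1 := fun x y hx hy =>
    (hw x y).trans (max_le hx hy)
  have hmul : ∀ x y : E, w x ≤ 1 → w y ≤ 1 → w (x * y) ≤ 1 := fun x y hx hy => by
    rw [map_mul]; exact mul_le_one₀ hx (w.nonneg _) hy
  have hneg : ∀ x : E, w x ≤ 1 → w (-x) ≤ 1 := fun x hx => by rw [w.map_neg]; exact hx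
  have hsq : ∀ x : E, w x ≤ 1 → w (x ^ 2) ≤ 1 := fun x hx => by
    rw [sq]; exact hmul x x hx hx
  have hab := hadd a b ha hb
  have hG : w (GG f a b) ≤ 1 := by
    unfold GG
    refine hadd _ _ (hadd _ _ (hadd _ _ ?_ ?_) ?_) (hf 2)
    · exact hmul _ _ hab (hadd _ _ (hadd _ _ (hsq a ha) (hmul _ _ ha hb)) (hsq b hb))
    · exact hmul _ _ (hf 4) (hsq _ hab)
    · exact hmul _ _ (hf 3) hab
  intro m
  fin_cases m
  · exact hneg _ hab
  · exact hneg _ ha
  · exact hsq _ ha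
  · exact hneg _ hab
  · exact hmul _ _ ha hb
  · exact hG

theorem plg (h1 : KDT.LfaStatement) (h2 : KDT.GmpStatement) (h3 : SZT.AOutStatement)
    (h4 : SZT.DsrStatement) (h5 : SZT.B.CplStmt) : PlgStatement := by
  obtain ⟨c2, ci, hc2, -, haot, -⟩ := h3
  intro K _ _ v f hf hf5 hsq hint hv21 A B U W M hVG hGen
  obtain ⟨Ω, L, _, _, _, _, _, i, j, hij⟩ := h5 K v.val (fp_nonarch25 v) (fp_nontriv25 v)
  let w : AbsoluteValue Ω ℝ :=
    { toFun := fun x => ‖j x‖
      map_mul' := fun x y => by rw [map_mul, norm_mul]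
      nonneg' := fun x => norm_nonneg _
      eq_zero' := fun x => by rw [norm_eq_zero, map_eq_zero]
      add_le' := fun x y => by rw [map_add]; exact norm_add_le _ _ }
  have hw : ∀ x, w x = ‖j x‖ := fun _ => rfl
  have hwv : ∀ x, w (i x) = v x := fun x => by rw [hw, hij]; rfl
  have hwna : IsNonarchimedean w := by
    intro x y
    rw [hw, hw, hw, map_add]
    exact IsUltrametricDist.norm_add_le_max _ _
  have hQU : QU w 0 := by
    refine ⟨le_rfl, fun a b => ?_⟩
    rw [Real.exp_zero, one_mul]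
    exact hwna a b
  have hchar : CharZero Ω := charZero_of_injective_ringHom i.injective
  have h20 : (2 : Ω) ≠ 0 := two_ne_zero
  have hfm : (f.map i).Monic := hf.map i
  have hf5' : (f.map i).natDegree = 5 := by rw [hf.natDegree_map, hf5]
  obtain ⟨θ, hθ⟩ := exists_theta25 (IsAlgClosed.splits (f.map i)) hfm hf5'
  have hsep : (f.map i).Separable := (PerfectField.separable_iff_squarefree.2 hsq).map
  have hinj : Function.Injective θ := theta_inj25 (hθ ▸ hsep)
  obtain ⟨⟨k, l⟩, hkl⟩ := Finite.exists_max (fun p : Fin 5 × Fin 5 => w (θ p.1 - θ p.2))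
  have hrho : rho w θ = w (θ k - θ l) :=
    le_antisymm (ciSup_le hkl)
      (le_ciSup (f := fun p : Fin 5 × Fin 5 => w (θ p.1 - θ p.2)) ⟨_, by
        rintro _ ⟨p, rfl⟩; exact hkl p⟩ (k, l))
  have hρ0 : 0 < w (θ k - θ l) := by
    refine lt_of_lt_of_le ?_ (hkl (0, 1))
    exact w.pos (sub_ne_zero.2 (hinj.ne (by decide)))
  have hne : k ≠ l := by
    rintro rfl
    rw [sub_self, map_zero] at hρ0
    exact lt_irrefl _ hρ0
  have hroot : ∀ m, w (θ m) ≤ 1 := by
    intro m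
    refine root_le25 w hwna hfm hf5' (fun n => ?_) (x := θ m) ?_
    · rw [coeff_map, hwv]; exact hint n
    · rw [hθ, eval_prod]
      exact Finset.prod_eq_zero (Finset.mem_univ m) (by simp)
  have hρ1 : w (θ k - θ l) ≤ 1 := by
    rw [sub_eq_add_neg]
    refine (hwna _ _).trans (max_le (hroot _) ?_)
    rw [w.map_neg]
    exact hroot _
  have hd : w (dsc θ) = v (discr f) := by
    rw [← hwv (discr f), ← discr_map_five25 i hf hf5, hθ]
    rcases h4 Ω θ with h | h
    · rw [h]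
    · rw [h, w.map_neg]
  have hv2 : w 2 = v 2 := by
    have h6 : i 2 = 2 := map_ofNat i 2
    rw [← hwv 2, h6]
  set ρ : ℝ := w (θ k - θ l) with hρdef
  set D₀ : ℝ := (1 / 2) * Real.log (v (discr f)) - 7 * Real.log ρ + c2 * Real.log (v 2) with hD₀
  have hlow : ∀ (A B U W : Polynomial Ω) (M : ℕ), Good (∏ m, (X - C (θ m))) A B →
      Gen (∏ m, (X - C (θ m))) A B U W M → D₀ ≤ Lv w (∏ m, (X - C (θ m))) A U M := by
    intro A B U W M hG hGen
    have h := haot Ω w θ A U W M hwna h20 hinj hG.monic hG.two (IsAlgClosed.splits A)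
      (IsAlgClosed.splits U) hGen.cop hGen.pos hGen.even hGen.pell
    rw [hd, hrho, hv2] at h
    exact h
  have hlog2 : Real.log (v (2 : K)) = 0 := by rw [hv21, Real.log_one]
  obtain ⟨-, g2, g3, g4, g5⟩ := h2 K Ω i f A B U W M hf
  have hG' := g2 hVG.1
  have hGen' := g3 hGen
  have hLv := g4 v.val w hwv
  have htau := g5 hVG
  have hrt : ∀ m, (f.map i).IsRoot (θ m) := by
    intro m
    rw [IsRoot.def, hθ, eval_prod]
    exact Finset.prod_eq_zero (Finset.mem_univ m) (by simp)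
  have htau' : ∀ m n, m ≠ n →
      tau (f.map i) (θ m) (θ n) (kum (f.map i) (A.map i) (B.map i)) ≠ 0 :=
    fun m n hmn => htau _ _ (hrt m) (hrt n) (hinj.ne hmn)
  have hmax : ∀ m n, w (θ m - θ n) ≤ ρ := fun m n => hkl (m, n)
  have hcoef : ∀ n, w ((f.map i).coeff n) ≤ 1 := fun n => by
    rw [coeff_map, hwv]; exact hint n
  have hvec : ∀ l' : Fin 4, v (kum f A B l') = w (kum (f.map i) (A.map i) (B.map i) l') := by
    intro l'
    rw [← kum_map25 i f A B l', hwv]
  intro l'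
  rw [hvec l']
  refine uni_inv35 w hwna (adc (f.map i) (θ k) (θ l)) _ _
    (adc_int35 w hwna (f.map i) (θ k) (θ l) hcoef (hroot k) (hroot l)) ?_ l'
  intro m'
  rw [hθ] at hG' hGen' hLv htau' ⊢
  have key := h1 Ω w 0 D₀ ρ θ k l hQU h20 hinj hne hmax rfl hlow (A.map i) (B.map i) (U.map i)
    (W.map i) M hG' htau' hGen' 1 (Pi.single m' 1) (single_mem35 m')
  rw [mon_single35] at key
  refine key.trans ?_
  rw [hLv]
  have hLv' : Lv v.val f A U M = Lv v f A U M := rfl
  rw [hLv', mul_zero, Real.exp_zero, one_mul, Nat.cast_one, one_mul]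
  have hlog : Real.log ρ ≤ 0 := Real.log_nonpos hρ0.le hρ1
  have hpow : ρ ^ wt (Pi.single m' 1 : Fin 4 → ℕ) ≤ 1 := pow_le_one₀ hρ0.le hρ1
  calc Real.exp (Lv v f A U M - D₀) * ρ ^ wt (Pi.single m' 1 : Fin 4 → ℕ)
      ≤ Real.exp (Lv v f A U M - D₀) * 1 :=
        mul_le_mul_of_nonneg_left hpow (Real.exp_nonneg _)
    _ = Real.exp (Lv v f A U M - D₀) := mul_one _
    _ ≤ _ := by
        refine Real.exp_le_exp.2 ?_
        rw [hD₀, hlog2]
        linarith

end Pool.Agent.KDD.H35
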