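import Pool.Agent.KDD.Stmts
import Pool.Agent.Helper88_SZT.MSM

set_option autoImplicit false

/-!
# Squad KDD, row GLT: the main inequality
-/

namespace Pool.Agent.KDD.H35

open Polynomial NumberField H58Q Pool.Agent.SZT Pool.Agent.KDT Pool.Agent.KDS

theorem glt (hGLF : KDS.GlfStatement) (hGLI : KDS.GliStatement) (hGLE : GleStatement)
    (hPFS : SZT.PfsStatement) (hQVN : SZT.QvnStatement) (hDSH : SZT.DshStatement) :
    GltStatement := by
  classical
  obtain ⟨c2, hc2, hL1⟩ := hGLF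
  intro i hi1
  obtain ⟨Ck, hCk, hL2⟩ := hGLI i
  have hl2 : 0 ≤ Real.log 2 := Real.log_nonneg (by norm_num)
  refine ⟨Ck + i * 10 ^ i * (2 * c2 * Real.log 2), by positivity, ?_⟩
  intro K _ _ f m₀ n₀ M I A B U W k Γ S₀ hf hdeg hsq hint hI hdiv hΓ hS₀ hVG hdet
  set S : Finset (FinitePlace K) := S₀.filter (fun v =>
    ¬ v (discr f) * (Ideal.absNorm v.maximalIdeal.asIdeal : ℝ) ^ n₀ < 1) with hSdef
  have hS : ∀ v ∈ S, CubeFree v.val f ∧ v (discr f) < 1 := fun v hv =>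
    hS₀ v (Finset.mem_filter.1 hv).1
  have hSn : ∀ v ∈ S, ¬ v (discr f) * (Ideal.absNorm v.maximalIdeal.asIdeal : ℝ) ^ n₀ < 1 :=
    fun v hv => (Finset.mem_filter.1 hv).2
  set D : K := (Matrix.of fun (j q : QI i) =>
    ∏ a : Fin i, mon (q a).1 (kum f (A j a) (B j a))).det with hD
  obtain ⟨hD0, -, -, -, -, -⟩ := hDSH K f hf hdeg hsq hint
  have hv1 : ∀ (v : FinitePlace K) (n : ℕ), v (f.coeff n) ≤ 1 := fun v n =>
    SZT.H88M.le_one_of_isIntegral v (hint n)
  have hVG2 : ∀ j : QI i, ∀ a ≤ i, VG f (A j a) (B j a) ∧ Gen f (A j a) (B j a) (U j a) (W j a) M :=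
    fun j a ha => ⟨(hVG j a ha).1, (hVG j a ha).2.1⟩
  -- the product formula for `Lv`
  have hPF : ∀ p : QI i × Fin i, ∃ T₀ : Finset (FinitePlace K),
      ∀ T : Finset (FinitePlace K), T₀ ⊆ T →
      ∑ v : InfinitePlace K, (v.mult : ℝ) * Lv v f (A p.1 p.2) (U p.1 p.2) M +
        ∑ v ∈ T, Lv v f (A p.1 p.2) (U p.1 p.2) M = 0 :=
    fun p => hPFS K f (A p.1 p.2) (U p.1 p.2) M (hVG p.1 p.2 p.2.2.le).1.1.cop
      (hVG p.1 p.2 p.2.2.le).2.1.cop
  choose T₀ hT₀ using hPF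
  obtain ⟨T1, hT1⟩ := SZT.H88M.fin_supp (K := K) hD0
  obtain ⟨T2, hT2⟩ := SZT.H88M.fin_supp (K := K) (x := 2) two_ne_zero
  obtain ⟨T3, hT3⟩ := SZT.H88M.fin_supp (K := K) hdet
  set T : Finset (FinitePlace K) := (((Finset.univ.biUnion T₀ ∪ T1) ∪ T2) ∪ T3) ∪ S with hT
  have hST : S ⊆ T := Finset.subset_union_right
  have hLL : ∑ v : InfinitePlace K, (v.mult : ℝ) *
        (∑ j : QI i, ∑ a : Fin i, 2 * Lv v f (A j a) (U j a) M) +
      ∑ v ∈ T, ∑ j : QI i, ∑ a : Fin i, 2 * Lv v f (A j a) (U j a) M = 0 := by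
    have h1 : ∀ p : QI i × Fin i,
        ∑ v : InfinitePlace K, (v.mult : ℝ) * Lv v f (A p.1 p.2) (U p.1 p.2) M +
        ∑ v ∈ T, Lv v f (A p.1 p.2) (U p.1 p.2) M = 0 := by
      intro p
      apply hT₀ p T
      intro v hv
      simp only [hT, Finset.mem_union]
      exact Or.inl (Or.inl (Or.inl (Or.inl
        (Finset.mem_biUnion.2 ⟨p, Finset.mem_univ p, hv⟩))))
    have h2 : ∑ p : QI i × Fin i,
        (∑ v : InfinitePlace K, (v.mult : ℝ) * Lv v f (A p.1 p.2) (U p.1 p.2) M +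
        ∑ v ∈ T, Lv v f (A p.1 p.2) (U p.1 p.2) M) = 0 := Finset.sum_eq_zero fun p _ => h1 p
    rw [Finset.sum_add_distrib, Finset.sum_comm, Finset.sum_comm (s := Finset.univ) (t := T)] at h2
    simp only [← Finset.mul_sum] at h2
    have h3 : ∀ v : K → ℝ,
        (∑ j : QI i, ∑ a : Fin i, 2 * Lv v f (A j a) (U j a) M) =
        2 * ∑ p : QI i × Fin i, Lv v f (A p.1 p.2) (U p.1 p.2) M := by
      intro v
      rw [Fintype.sum_prod_type, Finset.mul_sum]
      exact Finset.sum_congr rfl fun j _ => by rw [Finset.mul_sum]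
    have h4 : ∑ v : InfinitePlace K, (v.mult : ℝ) *
        (∑ j : QI i, ∑ a : Fin i, 2 * Lv v f (A j a) (U j a) M) =
        2 * ∑ v : InfinitePlace K, (v.mult : ℝ) *
          ∑ p : QI i × Fin i, Lv v f (A p.1 p.2) (U p.1 p.2) M := by
      rw [Finset.mul_sum]
      exact Finset.sum_congr rfl fun v _ => by rw [h3 v]; ring
    have h5 : ∑ v ∈ T, ∑ j : QI i, ∑ a : Fin i, 2 * Lv v f (A j a) (U j a) M =
        2 * ∑ v ∈ T, ∑ p : QI i × Fin i, Lv v f (A p.1 p.2) (U p.1 p.2) M := by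
      rw [Finset.mul_sum]
      exact Finset.sum_congr rfl fun v _ => h3 v
    rw [h4, h5, ← mul_add, h2, mul_zero]
  have hd := SZT.H88M.logprod hD0 T (fun v hv => by
    simp only [hT, Finset.mem_union]
    exact Or.inl (Or.inl (Or.inl (Or.inr (hT1 v hv)))))
  have h2 := SZT.H88M.log_two (K := K) T (fun v hv => by
    simp only [hT, Finset.mem_union]
    exact Or.inl (Or.inl (Or.inr (hT2 v hv))))
  have h3 := SZT.H88M.logprod hdet T (fun v hv => by
    simp only [hT, Finset.mem_union]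
    exact Or.inl (Or.inr (hT3 v hv)))
  have hS2 : ∀ v ∈ S, v (2 : K) = 1 := fun v hv => (hS v hv).1.1
  have hs2 : ∑ v ∈ S, Real.log (v (2 : K)) = 0 :=
    Finset.sum_eq_zero fun v hv => by rw [hS2 v hv, Real.log_one]
  have e0 := Finset.sum_sdiff (f := fun v : FinitePlace K => Real.log (v D)) hST
  have e1 := Finset.sum_sdiff
    (f := fun v : FinitePlace K => ∑ j : QI i, ∑ a : Fin i, 2 * Lv v f (A j a) (U j a) M) hST
  have e2 := Finset.sum_sdiff (f := fun v : FinitePlace K => Real.log (v (discr f))) hST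
  have e3 := Finset.sum_sdiff (f := fun v : FinitePlace K => Real.log (v (2 : K))) hST
  -- the infinite places
  have b1 : ∑ v : InfinitePlace K, (v.mult : ℝ) * Real.log (v D) ≤
      (∑ v : InfinitePlace K, (v.mult : ℝ) *
        (∑ j : QI i, ∑ a : Fin i, 2 * Lv v f (A j a) (U j a) M)) -
      i * 10 ^ i * (∑ v : InfinitePlace K, (v.mult : ℝ) * Real.log (v (discr f))) +
      17 * i * 10 ^ i * lH f + Ck * Module.finrank ℚ K := by
    have hm : (Module.finrank ℚ K : ℝ) = ∑ v : InfinitePlace K, (v.mult : ℝ) := by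
      rw [← Nat.cast_sum, InfinitePlace.sum_mult_eq]
    rw [hm, lH, Finset.mul_sum, Finset.mul_sum, Finset.mul_sum,
      ← Finset.sum_sub_distrib, ← Finset.sum_add_distrib, ← Finset.sum_add_distrib]
    apply Finset.sum_le_sum
    intro v _
    have h4 := mul_le_mul_of_nonneg_left
      (hL2 K v f M A B U W hf hdeg hsq hVG2 hdet)
      (Nat.cast_nonneg (α := ℝ) v.mult)
    refine h4.trans (le_of_eq ?_)
    ring
  -- the finite places outside of `S`
  have b2 : ∑ v ∈ T \ S, Real.log (v D) ≤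
      (∑ v ∈ T \ S, ∑ j : QI i, ∑ a : Fin i, 2 * Lv v f (A j a) (U j a) M) -
      i * 10 ^ i * ((∑ v ∈ T \ S, Real.log (v (discr f))) +
        2 * c2 * ∑ v ∈ T \ S, Real.log (v (2 : K))) := by
    rw [Finset.mul_sum, ← Finset.sum_add_distrib, Finset.mul_sum, ← Finset.sum_sub_distrib]
    exact Finset.sum_le_sum fun v _ => hL1 K v f i M A B U W hf hdeg hsq (hv1 v) hVG2 hdet
  -- the good places
  have b3 : ∑ v ∈ S, Real.log (v D) ≤
      (∑ v ∈ S, ∑ j : QI i, ∑ a : Fin i, 2 * Lv v f (A j a) (U j a) M) +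
      (Γ / 2 - 10 ^ i / 3) * (∑ v ∈ S, Real.log (v (discr f))) := by
    rw [Finset.mul_sum, ← Finset.sum_add_distrib]
    apply Finset.sum_le_sum
    intro v hv
    obtain ⟨hnode, hlt⟩ := hS v hv
    obtain ⟨n, hn, hq⟩ := hQVN K v (discr f) hD0 hlt
    have hDp : 0 < v (discr f) := FinitePlace.pos_iff.mpr hD0
    have hq0 : (0 : ℝ) ≤ (Ideal.absNorm v.maximalIdeal.asIdeal : ℝ) := Nat.cast_nonneg _
    have hq1 : (1 : ℝ) < (Ideal.absNorm v.maximalIdeal.asIdeal : ℝ) := by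
      by_contra hcon
      rw [not_lt] at hcon
      have h5 : (Ideal.absNorm v.maximalIdeal.asIdeal : ℝ) ^ n ≤ 1 := pow_le_one₀ hq0 hcon
      have h6 := mul_le_mul_of_nonneg_left h5 hDp.le
      rw [hq] at h6
      linarith
    have hle : n ≤ n₀ := by
      by_contra hcon
      apply hSn v hv
      rw [← hq]
      exact mul_lt_mul_of_pos_left (pow_lt_pow_right₀ hq1 (not_le.1 hcon)) hDp
    exact hGLE K v f n m₀ i M I A B U W k Γ hf hdeg hsq hnode hn hq hI
      (fun q hq1 hq2 => hdiv q hq1 (hq2.trans (Nat.mul_le_mul_left 250 hle))) hΓ hVG hdet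
  have hneg : ∀ v ∈ S, Real.log (v (discr f)) ≤ 0 := fun v hv =>
    Real.log_nonpos (FinitePlace.pos_iff.mpr hD0).le (hS v hv).2.le
  rw [hs2, add_zero] at e3
  rw [e3] at b2
  rw [← e0] at h3
  rw [← e1] at hLL
  rw [← e2] at hd
  set XI := ∑ v : InfinitePlace K, (v.mult : ℝ) * Real.log (v (discr f)) with hXI
  set XT := ∑ v ∈ T \ S, Real.log (v (discr f)) with hXT
  set XS := ∑ v ∈ S, Real.log (v (discr f)) with hXS
  have hXSn : XS ≤ 0 := Finset.sum_nonpos hneg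
  have e5 : (i : ℝ) * 10 ^ i * (XI + XT) = - ((i : ℝ) * 10 ^ i * XS) := by
    have h4 : XI + XT = - XS := by linarith
    rw [h4]
    ring
  have e6 : (Ck + (i : ℝ) * 10 ^ i * (2 * c2 * Real.log 2)) * (Module.finrank ℚ K : ℝ) =
      Ck * Module.finrank ℚ K +
        i * 10 ^ i * (2 * c2 * (Module.finrank ℚ K * Real.log 2)) := by ring
  have hi2 : (1 : ℝ) ≤ (i : ℝ) := by exact_mod_cast hi1
  have e8 : 0 ≤ ((i : ℝ) * 10 ^ i - 10 ^ i / 3) * (- XS) := by
    apply mul_nonneg _ (by linarith)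
    have h10 : (0 : ℝ) < 10 ^ i := by positivity
    nlinarith
  rw [h2] at b2
  rw [e6]
  nlinarith [b1, b2, b3, h3, hLL, e5, e8]

end Pool.Agent.KDD.H35
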